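import Mathlib

/-!
# MP_e8eed4_co: every multigraph, of any cardinality, is majority 3-choosable

Let `N v` be the set of the neighbours of `v` with positive weight. The vertices of finite degree
form `F`. A vertex `v` with infinitely many neighbours in `F` gets infinitely many of these
neighbours which may not use the colour of `v`, whatever this colour is: we choose for every vertex
`u` of `F` one forbidden colour. This is possible in any cardinality because every vertex of `F` has
finitely many neighbours, so that the problem splits into countable pieces. The other vertices of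
infinite degree have infinitely many neighbours outside `F`, and they are coloured by Zorn's lemma.
Finally the vertices of `F` are coloured from lists with two colours by finite optimisation and
compactness.
-/

set_option autoImplicit false

namespace Pool.Agent.Results.MP_e8eed4_co.Choosable

open Filter Set
open scoped ENNReal Classical

universe u v

/-- Total weight of the edges from `v` to vertices of a different colour. -/
noncomputable def D {V : Type u} {C : Type v} (G : SimpleGraph V) (w : Sym2 V → ℕ) (φ : V → C)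
    (x : V) : ℝ≥0∞ :=
  ∑' y, if G.Adj x y ∧ φ y ≠ φ x then (w s(x, y) : ℝ≥0∞) else 0

/-- Total weight of the edges from `v` to vertices of the same colour. -/
noncomputable def S {V : Type u} {C : Type v} (G : SimpleGraph V) (w : Sym2 V → ℕ) (φ : V → C)
    (x : V) : ℝ≥0∞ :=
  ∑' y, if G.Adj x y ∧ φ y = φ x then (w s(x, y) : ℝ≥0∞) else 0

/-- Countably many infinite sets contain disjoint infinite sets. -/
theorem sdr {V : Type u} {I : Type v} [Countable I] (A : I → Set V) (hA : ∀ i, (A i).Infinite) :
    ∃ p : I × ℕ → V, Function.Injective p ∧ ∀ i k, p (i, k) ∈ A i := by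
  rcases isEmpty_or_nonempty I with hI | hI
  · exact ⟨fun i => hI.elim i.1, fun i => hI.elim i.1, fun i => hI.elim i⟩
  obtain ⟨e, he⟩ := exists_surjective_nat (I × ℕ)
  choose pick hp1 hp2 using fun (n : ℕ) (s : Finset V) => (hA (e n).1).exists_notMem_finset s
  let F : ℕ → Finset V := fun n => Nat.rec ∅ (fun n s => insert (pick n s) s) n
  have hF : ∀ n, F (n + 1) = insert (pick n (F n)) (F n) := fun n => rfl
  have mem : ∀ m n, m < n → pick m (F m) ∈ F n := by
    intro m n h
    induction n, h using Nat.le_induction with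
    | base => rw [hF]; exact Finset.mem_insert_self _ _
    | succ n _ ih => rw [hF]; exact Finset.mem_insert_of_mem ih
  have inj : Function.Injective fun n => pick n (F n) := by
    intro m n h
    by_contra hne
    rcases lt_or_gt_of_ne hne with l | l
    · exact hp2 n (F n)
        (by have := mem m n l; rwa [show pick m (F m) = pick n (F n) from h] at this)
    · exact hp2 m (F m)
        (by have := mem n m l; rwa [← show pick m (F m) = pick n (F n) from h] at this)
  choose g hg using he
  refine ⟨fun i => pick (g i) (F (g i)), ?_, ?_⟩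
  · intro i j h
    have h1 : g i = g j := inj h
    rw [← hg i, ← hg j, h1]
  · intro i k
    have h1 := hp1 (g (i, k)) (F (g (i, k)))
    rwa [hg] at h1

/-- A relation in which everything has countably many neighbours has countable classes. -/
theorem countable_reach {I : Type v} (r : I → I → Prop) (hr : ∀ i, {j | r i j}.Countable)
    (i : I) : {j | Relation.ReflTransGen r i j}.Countable := by
  let T : ℕ → Set I := fun n => Nat.rec {i} (fun _ s => ⋃ j ∈ s, {k | r j k}) n
  have hT : ∀ n, (T n).Countable := by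
    intro n
    induction n with
    | zero => exact countable_singleton i
    | succ n ih => exact ih.biUnion fun j _ => hr j
  refine (countable_iUnion hT).mono ?_
  intro j hj
  induction hj with
  | refl => exact mem_iUnion.2 ⟨0, rfl⟩
  | tail _ hbc ih =>
    obtain ⟨n, hn⟩ := mem_iUnion.1 ih
    exact mem_iUnion.2 ⟨n + 1, mem_biUnion hn hbc⟩

/-- Disjoint infinite subsets for a point-countable family of countable infinite sets. -/
theorem sdr_big {V : Type u} {I : Type v} (A : I → Set V) (hA : ∀ i, (A i).Infinite)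
    (hc : ∀ i, (A i).Countable) (hl : ∀ x, {i | x ∈ A i}.Countable) :
    ∃ p : I × ℕ → V, Function.Injective p ∧ ∀ i k, p (i, k) ∈ A i := by
  let r : I → I → Prop := fun i j => (A i ∩ A j).Nonempty
  have hr : ∀ i, {j | r i j}.Countable := by
    intro i
    refine ((hc i).biUnion fun x _ => hl x).mono ?_
    rintro j ⟨x, hx1, hx2⟩
    exact mem_biUnion hx1 hx2
  let st : Setoid I := Relation.EqvGen.setoid r
  have hclass : ∀ i, {j | Relation.EqvGen r i j}.Countable := by
    intro i
    refine (countable_reach r hr i).mono ?_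
    intro j hj
    have hsymm : ∀ a b, r a b → r b a := by
      rintro a b ⟨x, hx1, hx2⟩
      exact ⟨x, hx2, hx1⟩
    have key : ∀ a b, Relation.EqvGen r a b → Relation.ReflTransGen r a b := by
      intro a b hab
      induction hab with
      | rel a b h => exact Relation.ReflTransGen.single h
      | refl a => exact Relation.ReflTransGen.refl
      | symm a b _ ih =>
        have hst : Std.Symm r := ⟨fun a b h => hsymm a b h⟩
        exact (Relation.ReflTransGen.stdSymm (r := r)).symm _ _ ih
      | trans a b c _ _ ih1 ih2 => exact ih1.trans ih2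
    exact key i j hj
  have hcount : ∀ q : Quotient st, Countable {i : I // (Quotient.mk st i) = q} := by
    intro q
    obtain ⟨i, rfl⟩ := Quotient.exists_rep q
    refine ((hclass i).mono ?_).to_subtype
    intro j hj
    exact Relation.EqvGen.symm _ _ (Quotient.exact hj)
  choose p hp1 hp2 using fun q : Quotient st => by
    have := hcount q
    exact sdr (fun i : {i : I // (Quotient.mk st i) = q} => A i.1) fun i => hA i.1
  refine ⟨fun i => p (Quotient.mk st i.1) (⟨i.1, rfl⟩, i.2), ?_, ?_⟩
  · rintro ⟨i, k⟩ ⟨j, l⟩ h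
    have hi := hp2 (Quotient.mk st i) ⟨i, rfl⟩ k
    have hj := hp2 (Quotient.mk st j) ⟨j, rfl⟩ l
    have hq : (Quotient.mk st i) = (Quotient.mk st j) := by
      refine Quotient.sound (Relation.EqvGen.rel _ _ ⟨_, hi, ?_⟩)
      simp only at h
      rw [h]
      exact hj
    have gen : ∀ (q : Quotient st) (h1 : Quotient.mk st i = q) (h2 : Quotient.mk st j = q),
        p q (⟨i, h1⟩, k) = p q (⟨j, h2⟩, l) → (i, k) = (j, l) := by
      intro q h1 h2 he
      have := hp1 q he
      simp only [Prod.mk.injEq, Subtype.mk.injEq] at this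
      rw [this.1, this.2]
    refine gen (Quotient.mk st i) rfl hq.symm ?_
    have tr : ∀ (q : Quotient st) (h2 : Quotient.mk st j = q),
        p (Quotient.mk st j) (⟨j, rfl⟩, l) = p q (⟨j, h2⟩, l) := by
      rintro q rfl
      rfl
    exact h.trans (tr _ hq.symm)
  · intro i k
    exact hp2 (Quotient.mk st i) ⟨i, rfl⟩ k

/-- A countable infinite subset. -/
theorem exists_countable_subset {V : Type u} {A : Set V} (h : A.Infinite) :
    ∃ B ⊆ A, B.Infinite ∧ B.Countable := by
  refine ⟨range fun k => (h.natEmbedding A k : V), ?_, ?_, countable_range _⟩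
  · rintro _ ⟨k, rfl⟩
    exact (h.natEmbedding A k).2
  · exact infinite_range_of_injective fun a b hab =>
      (h.natEmbedding A).injective (Subtype.ext hab)

/-- A colouring from lists with at least two colours in which every vertex `x` of `T` has
infinitely many points of `B x` with another colour. -/
theorem unfriendly {V : Type u} {C : Type v} (B : V → Set V) (L : V → Finset C)
    (hL : ∀ x, 2 ≤ (L x).card) (T : Set V) (hB : ∀ x ∈ T, (B x).Infinite) :
    ∃ φ : V → C, (∀ x, φ x ∈ L x) ∧ ∀ x ∈ T, {y | y ∈ B x ∧ φ y ≠ φ x}.Infinite := by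
  have other : ∀ (x : V) (c : C), ∃ d ∈ L x, d ≠ c := by
    intro x c
    have h1 : 1 < (L x).card := hL x
    exact Finset.exists_mem_ne h1 c
  let 𝒮 : Set (Set (V × C)) := {R | (∀ q ∈ R, q.2 ∈ L q.1) ∧
    (∀ x c d, (x, c) ∈ R → (x, d) ∈ R → c = d) ∧
    ∀ x c, (x, c) ∈ R → x ∈ T → {y | y ∈ B x ∧ ∃ d, (y, d) ∈ R ∧ d ≠ c}.Infinite}
  obtain ⟨R, hR⟩ := zorn_subset 𝒮 (by
    intro K hK hch
    refine ⟨⋃₀ K, ⟨?_, ?_, ?_⟩, fun s hs => subset_sUnion_of_mem hs⟩
    · rintro q ⟨s, hs, hq⟩
      exact (hK hs).1 q hq
    · rintro x c d ⟨s, hs, hq⟩ ⟨t, ht, hq'⟩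
      rcases hch.total hs ht with h | h
      · exact (hK ht).2.1 x c d (h hq) hq'
      · exact (hK hs).2.1 x c d hq (h hq')
    · rintro x c ⟨s, hs, hq⟩ hx
      refine ((hK hs).2.2 x c hq hx).mono ?_
      rintro y ⟨hy, d, hd, hne⟩
      exact ⟨hy, d, ⟨s, hs, hd⟩, hne⟩)
  obtain ⟨h1, h2, h3⟩ := hR.prop
  -- the domain
  let P : Set V := {x | ∃ c, (x, c) ∈ R}
  have hext : ∀ R' ∈ 𝒮, R ⊆ R' → R' ⊆ R := fun R' hR' hle => hR.le_of_ge hR' hle
  have hPuniv : ∀ x, x ∈ P := by
    by_contra hcon
    push Not at hcon
    obtain ⟨x₀, hx₀⟩ := hcon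
    by_cases hstep : ∃ x, x ∉ P ∧ (x ∈ T → (B x ∩ P).Infinite)
    · obtain ⟨x, hxP, hxT⟩ := hstep
      -- colour the single vertex `x`
      obtain ⟨c, hc, hcol⟩ : ∃ c ∈ L x, x ∈ T →
          {y | y ∈ B x ∧ ∃ d, (y, d) ∈ R ∧ d ≠ c}.Infinite := by
        obtain ⟨c1, hc1, -⟩ : ∃ c ∈ L x, True := by
          have : 0 < (L x).card := lt_of_lt_of_le two_pos (hL x)
          obtain ⟨c, hc⟩ := Finset.card_pos.1 this
          exact ⟨c, hc, trivial⟩
        obtain ⟨c2, hc2, hne⟩ := other x c1
        by_cases hx : x ∈ T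
        · by_cases hi : {y | y ∈ B x ∧ ∃ d, (y, d) ∈ R ∧ d ≠ c1}.Infinite
          · exact ⟨c1, hc1, fun _ => hi⟩
          · refine ⟨c2, hc2, fun _ => ?_⟩
            have hfin := not_infinite.1 hi
            refine ((hxT hx).sdiff hfin).mono ?_
            rintro y ⟨⟨hyB, d, hd⟩, hy⟩
            refine ⟨hyB, d, hd, ?_⟩
            have hd1 : d = c1 := by
              by_contra hne1
              exact hy ⟨hyB, d, hd, hne1⟩
            rw [hd1]
            exact hne.symm
        · exact ⟨c1, hc1, fun h => absurd h hx⟩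
      have hmem : insert (x, c) R ∈ 𝒮 := by
        refine ⟨?_, ?_, ?_⟩
        · rintro q (rfl | hq)
          · exact hc
          · exact h1 q hq
        · rintro y d e (hd | hd) (he | he)
          · simp only [Prod.mk.injEq] at hd he
            rw [hd.2, he.2]
          · simp only [Prod.mk.injEq] at hd
            exact absurd ⟨e, hd.1 ▸ he⟩ hxP
          · simp only [Prod.mk.injEq] at he
            exact absurd ⟨d, he.1 ▸ hd⟩ hxP
          · exact h2 y d e hd he
        · rintro y d (hd | hd) hy
          · simp only [Prod.mk.injEq] at hd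
            obtain ⟨rfl, rfl⟩ := hd
            refine (hcol hy).mono ?_
            rintro z ⟨hz, e, he, hne⟩
            exact ⟨hz, e, Or.inr he, hne⟩
          · refine (h3 y d hd hy).mono ?_
            rintro z ⟨hz, e, he, hne⟩
            exact ⟨hz, e, Or.inr he, hne⟩
      exact hxP ⟨c, hext _ hmem (subset_insert _ _) (mem_insert _ _)⟩
    · push Not at hstep
      -- every vertex outside `P` is in `T` and has infinitely many points of `B x` outside `P`
      have hout : ∀ x : V, ∃ A : Set V, x ∉ P → A ⊆ B x ∧ A ⊆ Pᶜ ∧ A.Infinite ∧ A.Countable := by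
        intro x
        by_cases hx : x ∈ P
        · exact ⟨∅, fun h => absurd hx h⟩
        · obtain ⟨hxT, hfin⟩ := hstep x hx
          have hinf : (B x ∩ Pᶜ).Infinite := by
            by_contra hcon
            have h4 := Set.Finite.union hfin (not_infinite.1 hcon)
            rw [← inter_union_distrib_left, union_compl_self, inter_univ] at h4
            exact hB x hxT h4
          obtain ⟨A, hA1, hA2, hA3⟩ := exists_countable_subset hinf
          exact ⟨A, fun _ => ⟨fun y hy => (hA1 hy).1, fun y hy => (hA1 hy).2, hA2, hA3⟩⟩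
      choose A hA using hout
      let r : V → V → Prop := fun x y => x ∉ P ∧ y ∈ A x
      have hr : ∀ x, {y | r x y}.Countable := by
        intro x
        by_cases hx : x ∈ P
        · convert countable_empty
          ext y
          simp [r, hx]
        · exact ((hA x hx).2.2.2).mono fun y hy => hy.2
      let Q : Set V := {y | Relation.ReflTransGen r x₀ y}
      have hQc : Q.Countable := countable_reach r hr x₀
      have hQP : ∀ y ∈ Q, y ∉ P := by
        intro y hy
        induction hy with
        | refl => exact hx₀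
        | tail _ hbc _ => exact (hA _ hbc.1).2.1 hbc.2
      have hQA : ∀ y ∈ Q, A y ⊆ Q := by
        intro y hy z hz
        exact Relation.ReflTransGen.tail hy ⟨hQP y hy, hz⟩
      have : Countable Q := hQc.to_subtype
      obtain ⟨p, hp1, hp2⟩ := sdr (V := V)
        (I := Σ x : Q, {c : C // c ∈ L x}) (fun i => A i.1) fun i => (hA _ (hQP _ i.1.2)).2.2.1
      -- the colour of a vertex of `Q`
      choose oth hoth1 hoth2 using other
      have hdef : ∀ x : V, ∃ c : C, c ∈ L x := fun x => by
        have : 0 < (L x).card := lt_of_lt_of_le two_pos (hL x)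
        exact Finset.card_pos.1 this
      choose df hdf using hdef
      let ψ : V → C := fun x => if h : ∃ i, p i = x then oth x (h.choose.1.2 : C) else df x
      have hψL : ∀ x, ψ x ∈ L x := by
        intro x
        by_cases h : ∃ i, p i = x
        · simp only [ψ, dif_pos h]
          exact hoth1 _ _
        · simp only [ψ, dif_neg h]
          exact hdf x
      have hψp : ∀ i, ψ (p i) ≠ (i.1.2 : C) := by
        intro i
        have h : ∃ j, p j = p i := ⟨i, rfl⟩
        have hi : h.choose = i := hp1 h.choose_spec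
        simp only [ψ, dif_pos h]
        have h5 := hoth2 (p i) (h.choose.1.2 : C)
        have h6 : (h.choose.1.2 : C) = (i.1.2 : C) := by rw [hi]
        rw [h6] at h5 ⊢
        exact h5
      have hmem : R ∪ {q | q.1 ∈ Q ∧ q.2 = ψ q.1} ∈ 𝒮 := by
        refine ⟨?_, ?_, ?_⟩
        · rintro q (hq | ⟨-, hq⟩)
          · exact h1 q hq
          · rw [hq]; exact hψL _
        · rintro y d e (hd | hd) (he | he)
          · exact h2 y d e hd he
          · exact absurd ⟨d, hd⟩ (hQP y he.1)
          · exact absurd ⟨e, he⟩ (hQP y hd.1)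
          · rw [show d = ψ y from hd.2, show e = ψ y from he.2]
        · rintro y d (hd | hd) hy
          · refine (h3 y d hd hy).mono ?_
            rintro z ⟨hz, e, he, hne⟩
            exact ⟨hz, e, Or.inl he, hne⟩
          · obtain ⟨hyQ, hdy⟩ := hd
            simp only at hyQ hdy
            have hdL : d ∈ L y := by rw [hdy]; exact hψL y
            apply infinite_of_injective_forall_mem
              (f := fun k : ℕ => p (⟨⟨y, hyQ⟩, ⟨d, hdL⟩⟩, k))
            · intro k l hkl
              have := hp1 hkl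
              simpa using this
            · intro k
              have h7 := hp2 ⟨⟨y, hyQ⟩, ⟨d, hdL⟩⟩ k
              refine ⟨(hA y (hQP y hyQ)).1 h7, ψ (p (⟨⟨y, hyQ⟩, ⟨d, hdL⟩⟩, k)),
                Or.inr ⟨hQA y hyQ h7, rfl⟩, ?_⟩
              exact hψp (⟨⟨y, hyQ⟩, ⟨d, hdL⟩⟩, k)
      exact hx₀ ⟨ψ x₀, hext _ hmem subset_union_left
        (Or.inr ⟨Relation.ReflTransGen.refl, rfl⟩)⟩
  choose φ hφ using hPuniv
  refine ⟨φ, fun x => h1 _ (hφ x), fun x hx => ?_⟩
  refine (h3 x (φ x) (hφ x) hx).mono ?_
  rintro y ⟨hy, d, hd, hne⟩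
  refine ⟨hy, ?_⟩
  rw [h2 y (φ y) d (hφ y) hd]
  exact hne

/-- Finite optimisation: the vertices outside `F` keep their colour. -/
theorem fin_opt {V : Type u} {C : Type v} (a : V → V → ℕ) (sy : ∀ x y, a x y = a y x)
    (lo : ∀ x, a x x = 0) (F : Set V) (L : V → Finset C) (hL : ∀ x ∈ F, 2 ≤ (L x).card)
    (φ₀ : V → C) (s : Finset V) :
    ∃ φ : V → C, (∀ x ∈ F, φ x ∈ L x) ∧ (∀ x ∉ F, φ x = φ₀ x) ∧ ∀ x ∈ s, x ∈ F →
      ∑ y ∈ s, (if φ y = φ x then a x y else 0) ≤ ∑ y ∈ s, (if φ y ≠ φ x then a x y else 0) := by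
  let M : (V → C) → ℕ := fun φ => ∑ x ∈ s, ∑ y ∈ s, if φ y = φ x then a x y else 0
  have hne : ∀ x ∈ F, ∃ c, c ∈ L x := fun x hx =>
    Finset.card_pos.1 (lt_of_lt_of_le two_pos (hL x hx))
  have hex : ∃ n, ∃ φ : V → C, ((∀ x ∈ F, φ x ∈ L x) ∧ (∀ x ∉ F, φ x = φ₀ x)) ∧ M φ = n := by
    refine ⟨_, fun x => if hx : x ∈ F then (hne x hx).choose else φ₀ x, ⟨?_, ?_⟩, rfl⟩
    · intro x hx
      simp only [dif_pos hx]
      exact (hne x hx).choose_spec
    · intro x hx
      simp only [dif_neg hx]
  obtain ⟨φ, ⟨h1, h1'⟩, h2⟩ := Nat.find_spec hex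
  refine ⟨φ, h1, h1', fun v hv hvF => ?_⟩
  obtain ⟨c, c1, c2⟩ : ∃ c ∈ L v, c ≠ φ v := Finset.exists_mem_ne (hL v hvF) (φ v)
  have dec : ∀ ψ : V → C, M ψ =
      (∑ u ∈ s.erase v, ∑ t ∈ s.erase v, if ψ t = ψ u then a u t else 0) +
        2 * ∑ u ∈ s.erase v, if ψ u = ψ v then a v u else 0 := by
    intro ψ
    simp only [M]
    rw [← Finset.add_sum_erase s _ hv, ← Finset.add_sum_erase s _ hv]
    have : ∑ u ∈ s.erase v, ∑ t ∈ s, (if ψ t = ψ u then a u t else 0) =
        (∑ u ∈ s.erase v, if ψ u = ψ v then a v u else 0) +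
          ∑ u ∈ s.erase v, ∑ t ∈ s.erase v, if ψ t = ψ u then a u t else 0 := by
      rw [← Finset.sum_add_distrib]
      refine Finset.sum_congr rfl fun u _ => ?_
      rw [← Finset.add_sum_erase s _ hv, sy u v]
      simp only [eq_comm]
    rw [this, lo]
    simp only [ite_self]
    ring
  have hmin : M φ ≤ M (Function.update φ v c) := by
    rw [h2]
    refine Nat.find_min' hex ⟨_, ⟨fun u hu => ?_, fun u hu => ?_⟩, rfl⟩
    · by_cases h : u = v
      · rw [h, Function.update_self]; exact c1
      · rw [Function.update_of_ne h]; exact h1 u hu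
    · have h : u ≠ v := fun h => hu (h ▸ hvF)
      rw [Function.update_of_ne h]; exact h1' u hu
  have e1 : (∑ u ∈ s.erase v, ∑ t ∈ s.erase v,
      if Function.update φ v c t = Function.update φ v c u then a u t else 0) =
      ∑ u ∈ s.erase v, ∑ t ∈ s.erase v, if φ t = φ u then a u t else 0 := by
    refine Finset.sum_congr rfl fun u hu => Finset.sum_congr rfl fun t ht => ?_
    rw [Function.update_of_ne (Finset.ne_of_mem_erase hu),
      Function.update_of_ne (Finset.ne_of_mem_erase ht)]
  have e2 : (∑ u ∈ s.erase v,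
      if Function.update φ v c u = Function.update φ v c v then a v u else 0) ≤
      ∑ u ∈ s.erase v, if φ u ≠ φ v then a v u else 0 := by
    refine Finset.sum_le_sum fun u hu => ?_
    rw [Function.update_of_ne (Finset.ne_of_mem_erase hu), Function.update_self]
    by_cases h : φ u = c
    · rw [if_pos h, if_pos (h ▸ c2)]
    · rw [if_neg h]; exact Nat.zero_le _
  rw [dec, dec, e1] at hmin
  rw [← Finset.add_sum_erase s _ hv, ← Finset.add_sum_erase s _ hv, lo]
  simp only [ite_self]
  omega

/-- A sum over an infinite set of positive terms is infinite. -/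
theorem tsum_top {V : Type u} (f : V → ℝ≥0∞) (A : Set V) (hA : A.Infinite)
    (h : ∀ x ∈ A, 1 ≤ f x) : ∑' x, f x = ⊤ := by
  have := hA.to_subtype
  have h3 := ENNReal.tsum_comp_le_tsum_of_injective
    (f := (Subtype.val : A → V)) Subtype.val_injective f
  refine top_le_iff.1 (le_trans ?_ h3)
  rw [← ENNReal.tsum_const_eq_top_of_ne_zero (α := A) one_ne_zero]
  exact ENNReal.tsum_le_tsum fun x => h x.1 x.2

/-- Every multigraph is majority 3-choosable. -/
theorem choosable (V : Type u) (G : SimpleGraph V) (w : Sym2 V → ℕ) (C : Type v)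
    (L : V → Finset C) (hL : ∀ x, 3 ≤ (L x).card) :
    ∃ φ : V → C, (∀ x, φ x ∈ L x) ∧ ∀ x, S G w φ x ≤ D G w φ x := by
  have main : ∃ φ : V → C, (∀ x, φ x ∈ L x) ∧ ∀ x, S G w φ x ≤ D G w φ x := by
    let a : V → V → ℕ := fun x y => if G.Adj x y then w s(x, y) else 0
    have sy : ∀ x y, a x y = a y x := fun x y => by simp only [a, G.adj_comm x y, Sym2.eq_swap]
    have lo : ∀ x, a x x = 0 := fun x => by simp [a]
    let N : V → Set V := fun x => {y | a x y ≠ 0}
    have hNs : ∀ x y, y ∈ N x → x ∈ N y := fun x y h => by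
      change a y x ≠ 0
      rw [sy]; exact h
    let F : Set V := {x | (N x).Finite}
    let W₁ : Set V := {x | (N x ∩ F).Infinite}
    have hW₁F : ∀ x ∈ W₁, x ∉ F := fun x hx hxF => hx (hxF.subset inter_subset_left)
    -- the forbidden colours
    have hsub : ∀ x : W₁, ∃ B ⊆ N x ∩ F, B.Infinite ∧ B.Countable := fun x =>
      exists_countable_subset x.2
    choose B hB1 hB2 hB3 using hsub
    obtain ⟨p, hp1, hp2⟩ := sdr_big (V := V) (I := Σ x : W₁, {c : C // c ∈ L x})
      (fun i => B i.1) (fun i => hB2 i.1) (fun i => hB3 i.1) (by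
        intro y
        by_cases hy : ∃ x : W₁, y ∈ B x
        · obtain ⟨x, hx⟩ := hy
          have hyF : (N y).Finite := (hB1 x hx).2
          have hfin : {z : W₁ | y ∈ B z}.Finite := by
            refine Finite.preimage Subtype.val_injective.injOn (f := (Subtype.val : W₁ → V))
              hyF |>.subset ?_
            intro z hz
            exact hNs _ _ (hB1 z hz).1
          have hcc : {i : Σ x : W₁, {c : C // c ∈ L x} | y ∈ B i.1} =
              ⋃ z ∈ {z : W₁ | y ∈ B z}, range fun c : {c : C // c ∈ L z} =>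
                (⟨z, c⟩ : Σ x : W₁, {c : C // c ∈ L x}) := by
            ext ⟨z, c⟩
            simp only [mem_ofPred_eq, mem_iUnion, mem_range, exists_prop]
            constructor
            · intro h
              exact ⟨z, h, c, rfl⟩
            · rintro ⟨z', hz', c', hc'⟩
              cases hc'
              exact hz'
          rw [hcc]
          exact hfin.countable.biUnion fun z _ => countable_range _
        · convert countable_empty
          ext i
          simp only [mem_ofPred_eq, mem_empty_iff_false, iff_false]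
          exact fun h => hy ⟨i.1, h⟩)
    have hne : ∀ x, ∃ c, c ∈ L x := fun x =>
      Finset.card_pos.1 (lt_of_lt_of_le three_pos (hL x))
    choose df hdf using hne
    let ex : V → C := Function.extend p (fun i => (i.1.2 : C)) df
    have hexp : ∀ i, ex (p i) = (i.1.2 : C) := fun i => hp1.extend_apply _ _ _
    -- the colours of the vertices of infinite degree
    let W₂ : Set V := {x | x ∉ F ∧ x ∉ W₁}
    have hW₂ : ∀ x ∈ W₂, (N x ∩ Fᶜ).Infinite := by
      rintro x ⟨hxF, hxW⟩
      by_contra hcon
      have h4 := (not_infinite.1 hxW).union (not_infinite.1 hcon)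
      rw [← inter_union_distrib_left, union_compl_self, inter_univ] at h4
      exact hxF h4
    obtain ⟨φ₀, hφ1, hφ2⟩ := unfriendly (fun x => N x ∩ Fᶜ) L
      (fun x => le_trans (by norm_num) (hL x)) W₂ hW₂
    -- finite optimisation and compactness
    choose ψ h1 h1' h2 using fin_opt a sy lo F (fun x => (L x).erase (ex x)) (fun x _ => by
      have := Finset.pred_card_le_card_erase (s := L x) (a := ex x)
      have := hL x
      omega) φ₀
    have h1L : ∀ s x, ψ s x ∈ L x := by
      intro s x
      by_cases hx : x ∈ F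
      · exact Finset.mem_of_mem_erase (h1 s x hx)
      · rw [h1' s x hx]; exact hφ1 x
    let U : Ultrafilter (Finset V) := Ultrafilter.of atTop
    have hU : ∀ x, ∃ c, ∀ᶠ s in (U : Filter (Finset V)), ψ s x = c := by
      intro x
      have h5 : ∀ᶠ s in (U : Filter (Finset V)), ∃ c : {c : C // c ∈ L x}, ψ s x = c :=
        Eventually.of_forall fun s => ⟨⟨_, h1L s x⟩, rfl⟩
      obtain ⟨c, hc⟩ := Ultrafilter.eventually_exists_iff.1 h5
      exact ⟨c, hc⟩
    choose φ hφ using hU
    have hφL : ∀ x, φ x ∈ L x := fun x => by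
      obtain ⟨s, hs⟩ := (hφ x).exists
      exact hs ▸ h1L s x
    have hφF : ∀ x ∈ F, φ x ≠ ex x := fun x hx => by
      obtain ⟨s, hs⟩ := (hφ x).exists
      exact hs ▸ Finset.ne_of_mem_erase (h1 s x hx)
    have hφW : ∀ x ∉ F, φ x = φ₀ x := fun x hx => by
      obtain ⟨s, hs⟩ := (hφ x).exists
      rw [← hs, h1' s x hx]
    refine ⟨φ, hφL, fun v => ?_⟩
    have eS : S G w φ v = ∑' u, ((if φ u = φ v then a v u else 0 : ℕ) : ℝ≥0∞) := by
      refine tsum_congr fun u => ?_
      simp only [a]
      by_cases p : G.Adj v u <;> by_cases q : φ u = φ v <;> simp [p, q]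
    have eD : D G w φ v = ∑' u, ((if φ u ≠ φ v then a v u else 0 : ℕ) : ℝ≥0∞) := by
      refine tsum_congr fun u => ?_
      simp only [a, ne_eq]
      by_cases p : G.Adj v u <;> by_cases q : φ u = φ v <;> simp [p, q]
    rw [eS, eD]
    have htop : ∀ A : Set V, A.Infinite → (∀ y ∈ A, y ∈ N v ∧ φ y ≠ φ v) →
        ∑' u, ((if φ u ≠ φ v then a v u else 0 : ℕ) : ℝ≥0∞) = ⊤ := by
      intro A hA h
      refine tsum_top _ A hA fun y hy => ?_
      rw [if_pos (h y hy).2]
      exact_mod_cast Nat.one_le_iff_ne_zero.2 (h y hy).1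
    by_cases hvF : v ∈ F
    · have hf : (N v).Finite := hvF
      let t : Finset V := insert v hf.toFinset
      have ev1 : ∀ᶠ s in (U : Filter (Finset V)), t ≤ s :=
        Ultrafilter.of_le atTop (eventually_ge_atTop t)
      have ev2 : ∀ᶠ s in (U : Filter (Finset V)), ∀ u ∈ t, ψ s u = φ u :=
        (eventually_all_finset t).2 fun u _ => hφ u
      obtain ⟨s, s1, s2⟩ := (ev1.and ev2).exists
      have vt : v ∈ t := Finset.mem_insert_self _ _
      have z : ∀ u, u ∉ t → a v u = 0 := fun u hu => by
        by_contra h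
        exact hu (Finset.mem_insert_of_mem (hf.mem_toFinset.2 h))
      have h3 := h2 s v (s1 vt) hvF
      have r1 : ∀ u, (if ψ s u = ψ s v then a v u else 0) = if φ u = φ v then a v u else 0 := by
        intro u
        by_cases hu : u ∈ t
        · rw [s2 u hu, s2 v vt]
        · simp [z u hu]
      have r2 : ∀ u, (if ψ s u ≠ ψ s v then a v u else 0) = if φ u ≠ φ v then a v u else 0 := by
        intro u
        by_cases hu : u ∈ t
        · rw [s2 u hu, s2 v vt]
        · simp [z u hu]
      simp only [r1, r2] at h3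
      rw [tsum_eq_sum (s := s) fun u hu => by simp [z u fun h => hu (s1 h)],
        tsum_eq_sum (s := s) fun u hu => by simp [z u fun h => hu (s1 h)]]
      exact_mod_cast h3
    · by_cases hvW : v ∈ W₁
      · refine le_top.trans_eq (htop (range fun k : ℕ => p (⟨⟨v, hvW⟩, ⟨φ v, hφL v⟩⟩, k)) ?_
          ?_).symm
        · apply infinite_range_of_injective
          intro k l hkl
          have := hp1 hkl
          simpa using this
        · rintro _ ⟨k, rfl⟩
          have h7 := hB1 _ (hp2 ⟨⟨v, hvW⟩, ⟨φ v, hφL v⟩⟩ k)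
          refine ⟨h7.1, ?_⟩
          have h8 := hφF _ h7.2
          rw [hexp] at h8
          exact h8
      · refine le_top.trans_eq (htop _ (hφ2 v ⟨hvF, hvW⟩) ?_).symm
        rintro y ⟨⟨hy, hyF⟩, hne⟩
        refine ⟨hy, ?_⟩
        rw [hφW y hyF, hφW v hvF]
        exact hne
  exact main

/-- **Every multigraph, of any cardinality, is majority 3-choosable**; in particular it is majority
3-colourable. -/
theorem result (V : Type u) (G : SimpleGraph V) (w : Sym2 V → ℕ) :
    (∀ (C : Type v) (L : V → Finset C), (∀ x, 3 ≤ (L x).card) →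
      ∃ φ : V → C, (∀ x, φ x ∈ L x) ∧ ∀ x, S G w φ x ≤ D G w φ x) ∧
    ∃ φ : V → Fin 3, ∀ x, S G w φ x ≤ D G w φ x := by
  refine ⟨fun C L hL => choosable V G w C L hL, ?_⟩
  obtain ⟨φ, -, h⟩ := choosable V G w (Fin 3) (fun _ => Finset.univ) fun _ => by simp
  exact ⟨φ, h⟩

end Pool.Agent.Results.MP_e8eed4_co.Choosable
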